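import Mathlib
import Pool.Agent.T6.H91.SA.Upper

/-!
# MP_5402c6: the maximum number of edges of a semi-arc `k`-visibility graph on `n ≥ 5k+5` vertices,
and the failure of the conjectured value for every `n ≥ 3k+4`
-/

namespace Pool.Agent.Results.MP_5402c6_co.ExactLarge

open Pool.Agent.Results.MP_e2d93f_co.AllK Pool.Agent.T6.H91.SA

/-- The possible numbers of edges of a semi-arc `k`-visibility graph on `n` vertices. -/
def EdgeCounts (k n : ℕ) : Set ℕ :=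
  {m | ∃ G : SimpleGraph (Fin n), IsSemiArcVisibility k G ∧ G.edgeSet.ncard = m}

theorem upper (k n : ℕ) (hn : 3 * k + 3 ≤ n) (m : ℕ) (hm : m ∈ EdgeCounts k n) :
    (m : ℚ) ≤ (k + 1) * (2 * n - (k + 2) / 2) := by
  obtain ⟨G, hG, rfl⟩ := hm
  have h := semi_edges_le k (by omega) G hG
  have h' : (2 * (G.edgeSet.ncard : ℚ) + (k + 1) * (k + 2)) ≤ 4 * (k + 1) * n := by
    exact_mod_cast h
  linarith

/-- The graph of the construction with `u` short arcs. -/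
theorem lower_aux (k n u : ℕ) (hu : k + 1 ≤ u) (hu2 : u ≤ 2 * (k + 1))
    (h : u + 2 * (k + 1) ≤ n) :
    ∃ m ∈ EdgeCounts k n, 4 * (k + 1) * n ≤ 2 * m + (k + 1) * (k + 2) +
      (2 * (k + 1) - u) * (2 * (k + 1) - u + 1) +
      (3 * (k + 1) + u - n) * (3 * (k + 1) + u - n + 1) := by
  refine ⟨_, ⟨GG n (k + 1) u h, ?_, rfl⟩, ?_⟩
  · have := GG_semi n (k + 1) u h
    simpa using this
  · have h1 := edges_ge (n := n) (K := k + 1) (u := u) (by omega) hu hu2 h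
    have h2 := sum_dd (n := n) (K := k + 1) (u := u) (by omega) hu hu2 h
    have h3 : (k + 1) * (k + 1 + 1) = (k + 1) * (k + 2) := by ring
    rw [h3] at h2
    omega

theorem lower (k n : ℕ) (hn : 3 * k + 3 ≤ n) :
    ∃ m ∈ EdgeCounts k n,
      ((k : ℚ) + 1) * (2 * n - (k + 2) / 2) - ((5 * k + 6 - n) ^ 2 / 4 : ℕ) ≤ m := by
  have h0 : k + 1 ≤ 2 * (k + 1) - (5 * k + 5 - n) / 2 := by omega
  have h1 : 2 * (k + 1) - (5 * k + 5 - n) / 2 + 2 * (k + 1) ≤ n := by omega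
  obtain ⟨m, hm, h⟩ := lower_aux k n (2 * (k + 1) - (5 * k + 5 - n) / 2) h0 (by omega) h1
  refine ⟨m, hm, ?_⟩
  have h2 : (2 * (k + 1) - (2 * (k + 1) - (5 * k + 5 - n) / 2)) *
      (2 * (k + 1) - (2 * (k + 1) - (5 * k + 5 - n) / 2) + 1) +
      (3 * (k + 1) + (2 * (k + 1) - (5 * k + 5 - n) / 2) - n) *
      (3 * (k + 1) + (2 * (k + 1) - (5 * k + 5 - n) / 2) - n + 1) ≤
      2 * ((5 * k + 6 - n) ^ 2 / 4) := by
    have e1 : 2 * (k + 1) - (2 * (k + 1) - (5 * k + 5 - n) / 2) = (5 * k + 5 - n) / 2 := by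
      omega
    rw [e1]
    rcases Nat.le_total (5 * k + 5) n with hc | hc
    · have e2 : 5 * k + 5 - n = 0 := by omega
      have e3 : 3 * (k + 1) + (2 * (k + 1) - (5 * k + 5 - n) / 2) - n = 0 := by omega
      rw [e3, e2]
      simp
    · obtain ⟨t, ht⟩ : ∃ t, 5 * k + 5 - n = t := ⟨_, rfl⟩
      have e3 : 3 * (k + 1) + (2 * (k + 1) - (5 * k + 5 - n) / 2) - n = t - t / 2 := by omega
      have e4 : 5 * k + 6 - n = t + 1 := by omega
      rw [e3, e4, ht]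
      rcases Nat.even_or_odd' t with ⟨s, rfl | rfl⟩
      · have e5 : 2 * s / 2 = s := by omega
        have e6 : 2 * s - s = s := by omega
        have e7 : (2 * s + 1) ^ 2 / 4 = s * (s + 1) := by
          have : (2 * s + 1) ^ 2 = 4 * (s * (s + 1)) + 1 := by ring
          omega
        rw [e5, e6, e7]
        ring_nf
        exact le_refl _
      · have e5 : (2 * s + 1) / 2 = s := by omega
        have e6 : 2 * s + 1 - s = s + 1 := by omega
        have e7 : (2 * s + 1 + 1) ^ 2 / 4 = (s + 1) * (s + 1) := by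
          have : (2 * s + 1 + 1) ^ 2 = 4 * ((s + 1) * (s + 1)) := by ring
          omega
        rw [e5, e6, e7]
        nlinarith
  have h3 : 4 * (k + 1) * n ≤ 2 * m + (k + 1) * (k + 2) + 2 * ((5 * k + 6 - n) ^ 2 / 4) := by
    omega
  have h4 : (4 * ((k : ℚ) + 1) * n) ≤ 2 * m + (k + 1) * (k + 2) +
      2 * ((5 * k + 6 - n) ^ 2 / 4 : ℕ) := by
    exact_mod_cast h3
  linarith

/-- **(1)** For every `k` and every `n ≥ 5k+5` the maximum number of edges is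
`(k+1)(2n - (k+2)/2)`. **(2)** For every `k` and every `n ≥ 3k+3` it is between
`(k+1)(2n - (k+2)/2) - ⌊(5k+6-n)²/4⌋` and `(k+1)(2n - (k+2)/2)`. **(3)** For every `k` and every
`n ≥ 3k+4` it is greater than the conjectured value `(k+1)(2n - (3k+6)/2)`. -/
theorem result :
    (∀ k n : ℕ, 5 * k + 5 ≤ n → ∃ m : ℕ, IsGreatest (EdgeCounts k n) m ∧
      (m : ℚ) = (k + 1) * (2 * n - (k + 2) / 2)) ∧
    (∀ k n : ℕ, 3 * k + 3 ≤ n → ∃ m : ℕ, IsGreatest (EdgeCounts k n) m ∧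
      ((k : ℚ) + 1) * (2 * n - (k + 2) / 2) - ((5 * k + 6 - n) ^ 2 / 4 : ℕ) ≤ m ∧
      (m : ℚ) ≤ (k + 1) * (2 * n - (k + 2) / 2)) ∧
    (∀ k n : ℕ, 3 * k + 4 ≤ n → ∃ m : ℕ, IsGreatest (EdgeCounts k n) m ∧
      ((k : ℚ) + 1) * (2 * n - (3 * k + 6) / 2) < m) := by
  have gr : ∀ k n : ℕ, 3 * k + 3 ≤ n → ∃ m : ℕ, IsGreatest (EdgeCounts k n) m := by
    intro k n hn
    obtain ⟨m0, hm0, -⟩ := lower k n hn
    have hb : BddAbove (EdgeCounts k n) := by
      refine ⟨4 * (k + 1) * n, ?_⟩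
      rintro _ ⟨G, hG, rfl⟩
      have h := semi_edges_le k (by omega) G hG
      omega
    exact ⟨sSup (EdgeCounts k n), Nat.sSup_mem ⟨m0, hm0⟩ hb, fun x hx => le_csSup hb hx⟩
  refine ⟨?_, ?_, ?_⟩
  · intro k n hn
    obtain ⟨m, hm⟩ := gr k n (by omega)
    refine ⟨m, hm, le_antisymm (upper k n (by omega) m hm.1) ?_⟩
    obtain ⟨m0, hm0, h0⟩ := lower k n (by omega)
    have h1 : (m0 : ℚ) ≤ m := by exact_mod_cast hm.2 hm0
    have h2 : (5 * k + 6 - n) ^ 2 / 4 = 0 := by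
      have : 5 * k + 6 - n ≤ 1 := by omega
      have : (5 * k + 6 - n) ^ 2 ≤ 1 ^ 2 := Nat.pow_le_pow_left this 2
      omega
    rw [h2] at h0
    push_cast at h0
    linarith
  · intro k n hn
    obtain ⟨m, hm⟩ := gr k n hn
    obtain ⟨m0, hm0, h0⟩ := lower k n hn
    have h1 : (m0 : ℚ) ≤ m := by exact_mod_cast hm.2 hm0
    exact ⟨m, hm, h0.trans h1, upper k n hn m hm.1⟩
  · intro k n hn
    obtain ⟨m, hm⟩ := gr k n (by omega)
    obtain ⟨m0, hm0, h0⟩ := lower k n (by omega)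
    have h1 : (m0 : ℚ) ≤ m := by exact_mod_cast hm.2 hm0
    refine ⟨m, hm, ?_⟩
    have h2 : (5 * k + 6 - n) ^ 2 / 4 ≤ (k + 1) * (k + 1) := by
      have h3 : 5 * k + 6 - n ≤ 2 * (k + 1) := by omega
      have h4 : (5 * k + 6 - n) ^ 2 ≤ (2 * (k + 1)) ^ 2 := Nat.pow_le_pow_left h3 2
      have h5 : (2 * (k + 1)) ^ 2 = 4 * ((k + 1) * (k + 1)) := by ring
      omega
    have h3 : (((5 * k + 6 - n) ^ 2 / 4 : ℕ) : ℚ) ≤ (k + 1) * (k + 1) := by
      exact_mod_cast h2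
    have hk : (0 : ℚ) ≤ k := by positivity
    nlinarith

end Pool.Agent.Results.MP_5402c6_co.ExactLarge
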